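import Pool.Agent.Work.MP_d20435_h42.Exact

/-!
# MP_d20435_nt: the sequence with an arbitrary starting value

`trm m 0, trm m 1, ...` is the sequence of the problem with the empty product `P_0 = 1` replaced by `P_0 = m`
(the sequence of the problem is `m = 1`). Question Q1 for `m`: does every prime which does not divide `m` occur?
The answer is no for almost all `m`, and more and more primes are missing.
-/

set_option autoImplicit false

namespace Pool.Agent.Results.MP_d20435_nt.AlmostAllStarts

open Pool.Agent.Work.MP_d20435_h42

/-- (1) If `S` has natural density `δ`, the set of starting values `m` with first term in `S` has natural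
density `δ`. (2) For every `K`, for almost all starting values `m` at least `K` primes neither divide `m` nor occur
as terms. (3) At most `160 x / log log x` starting values `m ≤ x` have the property that every prime not dividing
`m` is a term. -/
theorem result :
    (∀ (S : Set ℕ) (δ : ℝ), HasDensity S δ → HasDensity {m | trm m 0 ∈ S} δ) ∧
    (∀ K : ℕ, HasDensity {m | (K : ℕ∞) ≤ (missing m).encard} 1) ∧
    (∀ x : ℕ, 16 ≤ x → (({m | AllOccur m} ∩ Set.Icc 1 x).ncard : ℝ) ≤ 160 * x / Real.log (Real.log x)) :=
  ⟨fun _ _ hS => density_first hS, density_missing, few_allOccur⟩

end Pool.Agent.Results.MP_d20435_nt.AlmostAllStarts
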