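import Mathlib

set_option autoImplicit false

/-!
# MP_d20435_nt: the sequence is extremal among the sequences of pairwise coprime integers iff every prime occurs

Author: helper60.

`P_0 = 1`, `q_n` is the least prime greater than `P_(n-1) + 1`, `a_n = q_n - P_(n-1)`, `P_n = P_(n-1) a_n`.  Here `term n` is
`a_(n+1)`.

The terms are pairwise coprime: a common divisor of `a_n` and `P_(n-1)` divides the prime `q_n` and is smaller than it.  So the least
prime factors of the terms are different, and `n ↦ minFac a_n` is an injection into the primes with `minFac a_n ≤ a_n`.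
-/

open Finset Filter Topology

noncomputable section

namespace Pool.Agent.Results.MP_d20435_nt.ExtremalSequence

/-- The least prime greater than `m`. -/
def nextPrime (m : ℕ) : ℕ := sInf {q : ℕ | q.Prime ∧ m < q}

/-- The products `P_n`. -/
def P : ℕ → ℕ
  | 0 => 1
  | n + 1 => P n * (nextPrime (P n + 1) - P n)

/-- The terms: `term n` is `a_(n+1)`. -/
def term (n : ℕ) : ℕ := nextPrime (P n + 1) - P n

/-- Q1: every prime is a term. -/
def EveryPrimeOccurs : Prop := ∀ p : ℕ, p.Prime → ∃ n, term n = p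

/-- The indices of the terms which are at most `x`. -/
def small (x : ℕ) : Set ℕ := {n | term n ≤ x}

/-- The counting function of the terms is at most `π(x)`, with equality for all `x` iff Q1. -/
def Counting : Prop :=
  (∀ x, (small x).Finite ∧ (small x).ncard ≤ Nat.primeCounting x) ∧
    (EveryPrimeOccurs ↔ ∀ x, (small x).ncard = Nat.primeCounting x)

/-- Sums of strictly decreasing positive functions. -/
def Sums : Prop :=
  ∀ g : ℕ → ℝ, (∀ m, 2 ≤ m → 0 < g m) → (∀ m n, 2 ≤ m → m < n → g n < g m) →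
    Summable (fun p : Nat.Primes => g p) →
    Summable (fun n => g (term n)) ∧ ∑' n, g (term n) ≤ ∑' p : Nat.Primes, g p ∧
      (EveryPrimeOccurs ↔ ∑' n, g (term n) = ∑' p : Nat.Primes, g p)

/-- The product of the numbers `1 - a_n^(-2)` is at least `6 / π²`, with equality iff Q1. -/
def Product : Prop :=
  ∃ L : ℝ, Tendsto (fun N => ∏ n ∈ range N, (1 - 1 / (term n : ℝ) ^ 2)) atTop (𝓝 L) ∧
    6 / Real.pi ^ 2 ≤ L ∧ (EveryPrimeOccurs ↔ L = 6 / Real.pi ^ 2)

/-- `P_n + m` is a prime for at most `π(m)` indices `n`, and for at most `π(m-1)` indices if `m` is a prime that does not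
occur; a prime `p` occurs iff `P_n + p` is a prime for some `n` with `a_(n+1) ≥ p`. -/
def Shifts : Prop :=
  (∀ m, 2 ≤ m → {n | (P n + m).Prime}.Finite ∧
    {n | (P n + m).Prime}.ncard ≤ Nat.primeCounting m) ∧
  (∀ p, p.Prime → (∀ n, term n ≠ p) → {n | (P n + p).Prime}.ncard ≤ Nat.primeCounting (p - 1)) ∧
  ∀ p, p.Prime → ((∃ n, term n = p) ↔ ∃ n, (P n + p).Prime ∧ p ≤ term n)

/-- Q1 iff all terms are primes and every prime divides a term; the composite terms are at most as many as the primes that do not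
occur; if Q1 holds then `a_n ≤ p_n` for infinitely many `n`, `p_n` the `n`-th prime. -/
def Composite : Prop :=
  (EveryPrimeOccurs ↔ (∀ n, (term n).Prime) ∧ ∀ p : ℕ, p.Prime → ∃ n, p ∣ term n) ∧
  {n | ¬ (term n).Prime}.encard ≤ {p : ℕ | p.Prime ∧ ∀ n, term n ≠ p}.encard ∧
  (EveryPrimeOccurs → ∀ N, ∃ n, N ≤ n ∧ term n ≤ Nat.nth Nat.Prime n)

/-- The least prime which does not divide `P_n`. -/
def leastMissing (n : ℕ) : ℕ := sInf {p : ℕ | p.Prime ∧ ¬ p ∣ P n}

/-- Q1 iff all terms are primes and `P_n + r_n` is a prime for infinitely many `n`, `r_n` the least prime that does not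
divide `P_n`. -/
def LeastPrimes : Prop :=
  EveryPrimeOccurs ↔ (∀ n, (term n).Prime) ∧ ∀ N, ∃ n, N ≤ n ∧ (P n + leastMissing n).Prime

/-! ### Proofs -/

theorem np_spec (m : ℕ) : (nextPrime m).Prime ∧ m < nextPrime m := by
  have h : {q : ℕ | q.Prime ∧ m < q}.Nonempty := by
    obtain ⟨q, h1, h2⟩ := Nat.exists_infinite_primes (m + 1)
    exact ⟨q, h2, h1⟩
  exact Nat.sInf_mem h

theorem np_min {m q : ℕ} (hq : q.Prime) (h : m < q) : nextPrime m ≤ q := Nat.sInf_le ⟨hq, h⟩

theorem P_succ (n : ℕ) : P (n + 1) = P n * term n := rfl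

theorem add_eq (n : ℕ) : P n + term n = nextPrime (P n + 1) := by
  have h := (np_spec (P n + 1)).2
  rw [term]
  omega

theorem prime_add (n : ℕ) : (P n + term n).Prime := by
  rw [add_eq]
  exact (np_spec _).1

theorem two_le (n : ℕ) : 2 ≤ term n := by
  have h := (np_spec (P n + 1)).2
  rw [term]
  omega

theorem term_min {n m : ℕ} (hm : 2 ≤ m) (h : (P n + m).Prime) : term n ≤ m := by
  have h1 := np_min h (show P n + 1 < P n + m by omega)
  rw [← add_eq] at h1
  omega

theorem P_pos (n : ℕ) : 0 < P n := by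
  induction n with
  | zero => exact one_pos
  | succ n ih =>
    rw [P_succ]
    exact Nat.mul_pos ih (by have := two_le n; omega)

theorem coprime_P (n : ℕ) : Nat.Coprime (term n) (P n) := by
  have h1 : Nat.gcd (term n) (P n) ∣ P n + term n :=
    dvd_add (Nat.gcd_dvd_right _ _) (Nat.gcd_dvd_left _ _)
  rcases (prime_add n).eq_one_or_self_of_dvd _ h1 with h | h
  · exact h
  · exfalso
    have h2 : Nat.gcd (term n) (P n) ≤ P n := Nat.le_of_dvd (P_pos n) (Nat.gcd_dvd_right _ _)
    have h3 := two_le n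
    omega

theorem dvd_P {i j : ℕ} (h : i < j) : term i ∣ P j := by
  induction j with
  | zero => omega
  | succ j ih =>
    rw [P_succ]
    rcases Nat.lt_succ_iff_lt_or_eq.1 h with h | rfl
    · exact (ih h).mul_right _
    · exact dvd_mul_left _ _

theorem coprime {i j : ℕ} (h : i ≠ j) : Nat.Coprime (term i) (term j) := by
  rcases Nat.lt_or_gt_of_ne h with h | h
  · exact ((coprime_P j).coprime_dvd_right (dvd_P h)).symm
  · exact (coprime_P i).coprime_dvd_right (dvd_P h)

theorem f_prime (n : ℕ) : (term n).minFac.Prime :=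
  Nat.minFac_prime (by have := two_le n; omega)

theorem f_le (n : ℕ) : (term n).minFac ≤ term n := Nat.minFac_le (by have := two_le n; omega)

theorem eq_of_dvd {i j q : ℕ} (hq : q.Prime) (hi : q ∣ term i) (hj : q ∣ term j) : i = j := by
  by_contra h
  have h1 := Nat.dvd_gcd hi hj
  rw [coprime h] at h1
  exact hq.one_lt.ne' (Nat.dvd_one.1 h1)

theorem f_inj : Function.Injective fun n => (term n).minFac := by
  intro i j h
  have h' : (term i).minFac = (term j).minFac := h
  exact eq_of_dvd (f_prime i) (Nat.minFac_dvd _) (h' ▸ Nat.minFac_dvd _)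

/-- The primes up to `x`. -/
def pr (x : ℕ) : Finset ℕ := (range (x + 1)).filter Nat.Prime

theorem pr_card (x : ℕ) : (pr x).card = Nat.primeCounting x := by
  rw [Nat.primeCounting, Nat.primeCounting', Nat.count_eq_card_filter_range]
  rfl

theorem mem_pr {x p : ℕ} : p ∈ pr x ↔ p.Prime ∧ p ≤ x := by
  rw [pr, mem_filter, mem_range]
  constructor
  · rintro ⟨h1, h2⟩
    exact ⟨h2, by omega⟩
  · rintro ⟨h1, h2⟩
    exact ⟨by omega, h1⟩

theorem maps (x : ℕ) : ∀ n ∈ small x, (term n).minFac ∈ (pr x : Set ℕ) := by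
  intro n hn
  exact mem_coe.2 (mem_pr.2 ⟨f_prime n, (f_le n).trans hn⟩)

theorem small_fin (x : ℕ) : (small x).Finite :=
  Set.Finite.of_injOn (maps x) (f_inj.injOn) (pr x).finite_toSet

theorem small_card (x : ℕ) : (small x).ncard ≤ Nat.primeCounting x := by
  rw [← pr_card, ← Set.ncard_coe_finset]
  exact Set.ncard_le_ncard_of_injOn _ (maps x) f_inj.injOn (pr x).finite_toSet

theorem q1_card (h : EveryPrimeOccurs) (x : ℕ) : (small x).ncard = Nat.primeCounting x := by
  refine le_antisymm (small_card x) ?_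
  choose! g hg using h
  rw [← pr_card, ← Set.ncard_coe_finset]
  refine Set.ncard_le_ncard_of_injOn g ?_ ?_ (small_fin x)
  · intro p hp
    have h1 := mem_pr.1 (mem_coe.1 hp)
    change term (g p) ≤ x
    rw [hg p h1.1]
    exact h1.2
  · intro p hp q hq hpq
    have h1 := mem_pr.1 (mem_coe.1 hp)
    have h2 := mem_pr.1 (mem_coe.1 hq)
    rw [← hg p h1.1, ← hg q h2.1, hpq]

theorem counting : Counting := by
  refine ⟨fun x => ⟨small_fin x, small_card x⟩, q1_card, fun h p hp => ?_⟩
  have h1 : (fun n => (term n).minFac) '' small p = (pr p : Set ℕ) := by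
    refine Set.eq_of_subset_of_ncard_le ?_ ?_ (pr p).finite_toSet
    · rintro _ ⟨n, hn, rfl⟩
      exact maps p n hn
    · rw [Set.ncard_coe_finset, pr_card, Set.ncard_image_of_injective _ f_inj, h]
  have h2 : p ∈ (pr p : Set ℕ) := mem_coe.2 (mem_pr.2 ⟨hp, le_rfl⟩)
  rw [← h1] at h2
  obtain ⟨n, hn, hnp⟩ := h2
  refine ⟨n, le_antisymm hn ?_⟩
  have h3 : (term n).minFac = p := hnp
  rw [← h3]
  exact f_le n

theorem q1_prime (h : EveryPrimeOccurs) (n : ℕ) : (term n).Prime := by
  obtain ⟨m, hm⟩ := h _ (f_prime n)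
  have h1 : m = n := eq_of_dvd (f_prime n) (by rw [hm]) (Nat.minFac_dvd _)
  rw [h1] at hm
  rw [hm]
  exact f_prime n

theorem composite : Composite := by
  refine ⟨⟨fun h => ⟨q1_prime h, fun p hp => ?_⟩, fun h p hp => ?_⟩, ?_, fun h N => ?_⟩
  · obtain ⟨n, hn⟩ := h p hp
    exact ⟨n, by rw [hn]⟩
  · obtain ⟨n, hn⟩ := h.2 p hp
    exact ⟨n, ((Nat.prime_dvd_prime_iff_eq hp (h.1 n)).1 hn).symm⟩
  · refine Set.encard_le_encard_of_injOn (f := fun n => (term n).minFac) ?_ f_inj.injOn
    intro n hn
    refine ⟨f_prime n, fun m hm => hn ?_⟩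
    have hm' : term m = (term n).minFac := hm
    have h1 : m = n := eq_of_dvd (f_prime n) (by rw [hm']) (Nat.minFac_dvd _)
    rw [h1] at hm'
    rw [hm']
    exact f_prime n
  · by_contra hcon
    push Not at hcon
    have h1 := q1_card h (Nat.nth Nat.Prime N)
    have h2 : small (Nat.nth Nat.Prime N) ⊆ (range N : Set ℕ) := by
      intro n hn
      rw [coe_range, Set.mem_Iio]
      by_contra h3
      have h4 := hcon n (not_lt.1 h3)
      have h5 : Nat.nth Nat.Prime N ≤ Nat.nth Nat.Prime n :=
        Nat.nth_monotone Nat.infinite_setOf_prime (not_lt.1 h3)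
      have h6 : term n ≤ Nat.nth Nat.Prime N := hn
      omega
    have h3 := Set.ncard_le_ncard h2 (range N).finite_toSet
    rw [Set.ncard_coe_finset, card_range, h1, Nat.primeCounting, Nat.primeCounting',
      Nat.count_nth_succ_of_infinite Nat.infinite_setOf_prime] at h3
    omega

theorem shifts : Shifts := by
  refine ⟨fun m hm => ?_, fun p hp hn => ?_, fun p hp => ⟨?_, ?_⟩⟩
  · have h : {n | (P n + m).Prime} ⊆ small m := fun n hn => term_min hm hn
    exact ⟨(small_fin m).subset h, (Set.ncard_le_ncard h (small_fin m)).trans (small_card m)⟩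
  · have h : {n | (P n + p).Prime} ⊆ small (p - 1) := fun n hn' => by
      have h1 := term_min hp.two_le hn'
      have h2 := hn n
      change term n ≤ p - 1
      omega
    exact (Set.ncard_le_ncard h (small_fin _)).trans (small_card _)
  · rintro ⟨n, rfl⟩
    exact ⟨n, prime_add n, le_rfl⟩
  · rintro ⟨n, h1, h2⟩
    exact ⟨n, le_antisymm (term_min hp.two_le h1) h2⟩

theorem lm_spec (n : ℕ) : (leastMissing n).Prime ∧ ¬ leastMissing n ∣ P n := by
  have h : {p : ℕ | p.Prime ∧ ¬ p ∣ P n}.Nonempty :=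
    ⟨_, f_prime n, fun h => by
      have h1 := Nat.dvd_gcd (Nat.minFac_dvd (term n)) h
      rw [coprime_P n] at h1
      exact (f_prime n).one_lt.ne' (Nat.dvd_one.1 h1)⟩
  exact Nat.sInf_mem h

theorem lm_min {n p : ℕ} (hp : p.Prime) (h : ¬ p ∣ P n) : leastMissing n ≤ p :=
  Nat.sInf_le ⟨hp, h⟩

theorem P_dvd_P {i j : ℕ} (h : i ≤ j) : P i ∣ P j := by
  induction j with
  | zero =>
    rw [Nat.le_zero.1 h]
  | succ j ih =>
    rcases Nat.le_succ_iff.1 h with h | rfl
    · exact (ih h).mul_right _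
    · exact dvd_rfl

theorem lm_mono {i j : ℕ} (h : i ≤ j) : leastMissing i ≤ leastMissing j :=
  lm_min (lm_spec j).1 fun h1 => (lm_spec j).2 (h1.trans (P_dvd_P h))

/-- If `P_n + r_n` is a prime then the next term is `r_n`. -/
theorem lm_term {n : ℕ} (h : (P n + leastMissing n).Prime) : term n = leastMissing n := by
  refine le_antisymm (term_min (lm_spec n).1.two_le h) ?_
  refine (lm_min (f_prime n) fun h1 => ?_).trans (f_le n)
  have h2 := Nat.dvd_gcd (Nat.minFac_dvd (term n)) h1
  rw [coprime_P n] at h2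
  exact (f_prime n).one_lt.ne' (Nat.dvd_one.1 h2)

theorem lm_lt {n : ℕ} (h : (P n + leastMissing n).Prime) :
    leastMissing n < leastMissing (n + 1) := by
  refine lt_of_le_of_ne (lm_mono (Nat.le_succ n)) fun h1 => (lm_spec (n + 1)).2 ?_
  rw [← h1, P_succ, lm_term h]
  exact dvd_mul_left _ _

theorem leastPrimes : LeastPrimes := by
  constructor
  · intro h
    refine ⟨q1_prime h, fun N => ?_⟩
    obtain ⟨n, hn⟩ := h _ (lm_spec N).1
    have h1 : N ≤ n := by
      by_contra h2
      exact (lm_spec N).2 (hn ▸ dvd_P (not_le.1 h2))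
    have h2 : leastMissing n = term n := by
      refine le_antisymm ?_ ?_
      · refine lm_min (q1_prime h n) fun h3 => ?_
        have h4 := Nat.dvd_gcd (dvd_refl (term n)) h3
        rw [coprime_P n] at h4
        have h5 := two_le n
        have h6 := Nat.dvd_one.1 h4
        omega
      · rw [hn]
        exact lm_mono h1
    refine ⟨n, h1, ?_⟩
    rw [h2]
    exact prime_add n
  · rintro ⟨h1, h2⟩
    have h3 : ∀ K, ∃ n, K ≤ leastMissing n := by
      intro K
      induction K with
      | zero => exact ⟨0, Nat.zero_le _⟩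
      | succ K ih =>
        obtain ⟨n, hn⟩ := ih
        obtain ⟨m, hm, hm'⟩ := h2 n
        exact ⟨m + 1, Nat.succ_le_of_lt ((hn.trans (lm_mono hm)).trans_lt (lm_lt hm'))⟩
    intro p hp
    obtain ⟨n, hn⟩ := h3 (p + 1)
    have h4 : p ∣ P n := by
      by_contra h5
      have h6 := lm_min hp h5
      omega
    have h5 : ∀ n, p ∣ P n → ∃ i, p ∣ term i := by
      intro n
      induction n with
      | zero =>
        intro h6
        exact absurd (Nat.dvd_one.1 h6) hp.one_lt.ne'
      | succ n ih =>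
        intro h6
        rw [P_succ] at h6
        rcases (hp.dvd_mul).1 h6 with h7 | h7
        · exact ih h7
        · exact ⟨n, h7⟩
    obtain ⟨i, hi⟩ := h5 n h4
    exact ⟨i, ((Nat.prime_dvd_prime_iff_eq hp (h1 i)).1 hi).symm⟩

/-- The injection into the primes. -/
def F (n : ℕ) : Nat.Primes := ⟨(term n).minFac, f_prime n⟩

theorem F_inj : Function.Injective F := fun _ _ h => f_inj (congrArg Subtype.val h)

theorem sums : Sums := by
  intro g hpos hdec hs
  have h1 : Summable fun n => g (F n) := hs.comp_injective F_inj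
  have h2 : ∀ n, g (term n) ≤ g (F n) := by
    intro n
    rcases (f_le n).lt_or_eq with h | h
    · exact (hdec _ _ (f_prime n).two_le h).le
    · exact le_of_eq (congrArg g h.symm)
  have h3 : Summable fun n => g (term n) :=
    Summable.of_nonneg_of_le (fun n => (hpos _ (two_le n)).le) h2 h1
  have hind : ∑' n, g (F n) = ∑' p : Nat.Primes, (Set.range F).indicator (fun p => g p) p := by
    rw [← F_inj.tsum_eq (f := (Set.range F).indicator (fun p : Nat.Primes => g p))
      (Set.support_indicator_subset)]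
    refine tsum_congr fun n => ?_
    exact (Set.indicator_of_mem (Set.mem_range_self n) (fun p : Nat.Primes => g p)).symm
  have hle : ∀ p : Nat.Primes, (Set.range F).indicator (fun p => g p) p ≤ g p := fun p =>
    Set.indicator_le_self' (fun _ _ => (hpos _ p.2.two_le).le) p
  have hsi : Summable ((Set.range F).indicator (fun p : Nat.Primes => g p)) := hs.indicator _
  have h4 : ∑' n, g (F n) ≤ ∑' p : Nat.Primes, g p := by
    rw [hind]
    exact Summable.tsum_le_tsum hle hsi hs
  have h5 : ∑' n, g (term n) ≤ ∑' n, g (F n) := Summable.tsum_le_tsum h2 h3 h1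
  refine ⟨h3, h5.trans h4, fun h => ?_, fun h p hp => ?_⟩
  · have h6 : ∀ n, term n = (term n).minFac := fun n => ((q1_prime h n).minFac_eq).symm
    have h7 : Function.Bijective F := by
      refine ⟨F_inj, fun p => ?_⟩
      obtain ⟨n, hn⟩ := h p p.2
      exact ⟨n, Subtype.ext (by change (term n).minFac = p; rw [hn, p.2.minFac_eq])⟩
    rw [← (Equiv.ofBijective F h7).tsum_eq fun p : Nat.Primes => g p]
    refine tsum_congr fun n => ?_
    exact congrArg g (h6 n)
  · have h6 : ∀ n, term n = (term n).minFac := by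
      intro n
      by_contra hne
      have h7 : g (term n) < g (F n) :=
        hdec _ _ (f_prime n).two_le (lt_of_le_of_ne (f_le n) (Ne.symm hne))
      have h8 := Summable.tsum_lt_tsum h2 h7 h3 h1
      linarith
    obtain ⟨p', hp'⟩ : ∃ p' : Nat.Primes, p' = ⟨p, hp⟩ := ⟨_, rfl⟩
    by_cases hr : p' ∈ Set.range F
    · obtain ⟨n, hn⟩ := hr
      rw [hp'] at hn
      exact ⟨n, (h6 n).trans (congrArg Subtype.val hn)⟩
    · exfalso
      have h7 : (Set.range F).indicator (fun p : Nat.Primes => g p) p' < g p' := by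
        rw [Set.indicator_of_notMem hr]
        exact hpos p' p'.2.two_le
      have h8 := Summable.tsum_lt_tsum hle h7 hsi hs
      rw [← hind] at h8
      linarith

/-- The function of the product. -/
def gl (m : ℕ) : ℝ := -Real.log (1 - 1 / (m : ℝ) ^ 2)

theorem gl_arg {m : ℕ} (hm : 2 ≤ m) : 0 < 1 - 1 / (m : ℝ) ^ 2 ∧ 1 - 1 / (m : ℝ) ^ 2 < 1 := by
  have h1 : (2 : ℝ) ≤ m := by exact_mod_cast hm
  have h2 : (1 : ℝ) < (m : ℝ) ^ 2 := by nlinarith
  have h3 : 1 / (m : ℝ) ^ 2 < 1 := by
    rw [div_lt_one (by linarith)]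
    exact h2
  have h4 : 0 < 1 / (m : ℝ) ^ 2 := by positivity
  exact ⟨by linarith, by linarith⟩

theorem gl_pos (m : ℕ) (hm : 2 ≤ m) : 0 < gl m := by
  have h := gl_arg hm
  rw [gl, neg_pos]
  exact Real.log_neg h.1 h.2

theorem gl_dec (m n : ℕ) (hm : 2 ≤ m) (h : m < n) : gl n < gl m := by
  rw [gl, gl, neg_lt_neg_iff]
  refine Real.log_lt_log (gl_arg hm).1 ?_
  have h1 : (0 : ℝ) < m := by exact_mod_cast (by omega : 0 < m)
  have h2 : (m : ℝ) < n := by exact_mod_cast h
  have h3 : (m : ℝ) ^ 2 < (n : ℝ) ^ 2 := by gcongr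
  have h4 : 1 / (n : ℝ) ^ 2 < 1 / (m : ℝ) ^ 2 := one_div_lt_one_div_of_lt (by positivity) h3
  linarith

/-- The completely multiplicative function `1 / n²`. -/
def sq : ℕ →*₀ ℝ where
  toFun n := 1 / (n : ℝ) ^ 2
  map_zero' := by simp
  map_one' := by simp
  map_mul' a b := by
    push_cast
    rw [mul_pow]
    rw [one_div_mul_one_div]

theorem gl_hasSum : HasSum (fun p : Nat.Primes => gl p) (Real.log (Real.pi ^ 2 / 6)) := by
  have h1 : Summable fun n => ‖sq n‖ := by
    refine (hasSum_zeta_two.summable).congr fun n => ?_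
    change 1 / (n : ℝ) ^ 2 = ‖1 / (n : ℝ) ^ 2‖
    rw [Real.norm_of_nonneg (by positivity)]
  have h2 := EulerProduct.eulerProduct_completely_multiplicative_hasProd h1
  have h3 : ∑' n, sq n = Real.pi ^ 2 / 6 := hasSum_zeta_two.tsum_eq
  rw [h3] at h2
  have hL : (Real.pi ^ 2 / 6 : ℝ) ≠ 0 := by positivity
  have h4 := (Real.continuousAt_log hL).tendsto.comp h2
  refine h4.congr fun s => ?_
  change Real.log (∏ p ∈ s, (1 - sq p)⁻¹) = _
  rw [Real.log_prod]
  · refine Finset.sum_congr rfl fun p _ => ?_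
    rw [Real.log_inv]
    rfl
  · intro p _
    have := (gl_arg p.2.two_le).1
    exact inv_ne_zero this.ne'

theorem product : Product := by
  obtain ⟨h1, h2, h3⟩ := sums gl gl_pos gl_dec gl_hasSum.summable
  rw [gl_hasSum.tsum_eq] at h2 h3
  have hL : Real.exp (-Real.log (Real.pi ^ 2 / 6)) = 6 / Real.pi ^ 2 := by
    rw [Real.exp_neg, Real.exp_log (by positivity), inv_div]
  refine ⟨Real.exp (-∑' n, gl (term n)), ?_, ?_, ?_⟩
  · have h4 := (Real.continuous_exp.tendsto _).comp (h1.hasSum.tendsto_sum_nat.neg)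
    refine h4.congr fun N => ?_
    change Real.exp (-∑ n ∈ range N, gl (term n)) = _
    rw [← Finset.sum_neg_distrib, Real.exp_sum]
    refine Finset.prod_congr rfl fun n _ => ?_
    rw [gl, neg_neg, Real.exp_log (gl_arg (two_le n)).1]
  · rw [← hL]
    exact Real.exp_le_exp.2 (neg_le_neg h2)
  · rw [h3, ← hL, Real.exp_eq_exp, neg_inj]

/-- **Theorem.**  The sequence `(a_n)` of the problem is an extremal sequence of pairwise coprime integers iff every prime occurs. -/
theorem result : Counting ∧ Sums ∧ Product ∧ Shifts ∧ Composite ∧ LeastPrimes :=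
  ⟨counting, sums, product, shifts, composite, leastPrimes⟩

end Pool.Agent.Results.MP_d20435_nt.ExtremalSequence
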